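import Pool.Agent.H27.HC.T

/-!
# Row CPX: real- and complex-valued functions have the same constants
-/

set_option autoImplicit false

namespace Pool.Agent.H69.HC

open MeasureTheory Set Filter Topology Pool.Agent.H80.HS Pool.Agent.H27.HB Pool.Agent.H27.HC
open scoped ContDiff ENNReal InnerProductSpace

/-- the horizontal gradient of a function with values in the real line, as complex function -/
theorem grad_ofReal {n : ℕ} (u : H n → ℝ) (hu : ContDiff ℝ ∞ u) (z : H n) :
    grad (fun z => (u z : ℂ)) z = grad u z := by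
  have hd : DifferentiableAt ℝ u z := (hu.differentiable (by simp)) z
  have h1 : ∀ v : H n, fderiv ℝ (fun z => (u z : ℂ)) z v = ((fderiv ℝ u z v : ℝ) : ℂ) := by
    intro v
    have h2 : HasFDerivAt (fun z => (u z : ℂ)) (Complex.ofRealCLM.comp (fderiv ℝ u z)) z :=
      Complex.ofRealCLM.hasFDerivAt.comp z hd.hasFDerivAt
    rw [h2.fderiv]
    rfl
  unfold grad X Y
  simp only [h1, Complex.norm_real]

/-- the gradient is continuous -/
theorem grad_cont {n : ℕ} (u : H n → ℂ) (hu : ContDiff ℝ ∞ u) : Continuous (grad u) := by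
  have h1 : Continuous (fderiv ℝ u) := hu.continuous_fderiv (by simp)
  unfold grad X Y
  apply Real.continuous_sqrt.comp
  apply continuous_finset_sum
  intro j _
  apply Continuous.add
  · apply Continuous.pow
    apply Continuous.norm
    apply h1.clm_apply
    fun_prop
  · apply Continuous.pow
    apply Continuous.norm
    apply h1.clm_apply
    fun_prop

/-- the gradient has compact support -/
theorem grad_supp {n : ℕ} (u : H n → ℂ) (hu : HasCompactSupport u) :
    HasCompactSupport (grad u) := by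
  have h1 : HasCompactSupport (fderiv ℝ u) := hu.fderiv ℝ
  refine h1.mono ?_
  intro z hz
  rw [Function.mem_support] at hz ⊢
  intro h0
  apply hz
  unfold grad X Y
  simp [h0]

/-- the regularized absolute value -/
noncomputable def reg {n : ℕ} (u : H n → ℂ) (η : ℝ) (z : H n) : ℝ :=
  Real.sqrt (‖u z‖ ^ 2 + η ^ 2) - η

theorem reg_smooth {n : ℕ} (u : H n → ℂ) (hu : ContDiff ℝ ∞ u) (η : ℝ) (hη : 0 < η) :
    ContDiff ℝ ∞ (reg u η) := by
  unfold reg
  apply ContDiff.sub _ contDiff_const
  apply ContDiff.sqrt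
  · exact (hu.norm_sq ℝ).add contDiff_const
  · intro z
    positivity

theorem reg_nonneg {n : ℕ} (u : H n → ℂ) (η : ℝ) (hη : 0 < η) (z : H n) : 0 ≤ reg u η z := by
  unfold reg
  have h1 : η ≤ Real.sqrt (‖u z‖ ^ 2 + η ^ 2) := by
    apply Real.le_sqrt_of_sq_le
    nlinarith [sq_nonneg ‖u z‖]
  linarith

theorem reg_le {n : ℕ} (u : H n → ℂ) (η : ℝ) (hη : 0 < η) (z : H n) : reg u η z ≤ ‖u z‖ := by
  unfold reg
  have h1 : Real.sqrt (‖u z‖ ^ 2 + η ^ 2) ≤ ‖u z‖ + η := by
    apply Real.sqrt_le_iff.2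
    constructor
    · positivity
    · nlinarith [norm_nonneg (u z)]
  linarith

theorem reg_supp {n : ℕ} (u : H n → ℂ) (hu : HasCompactSupport u) (η : ℝ) (hη : 0 < η) :
    HasCompactSupport (reg u η) := by
  have h1 : reg u η = (fun w : ℂ => Real.sqrt (‖w‖ ^ 2 + η ^ 2) - η) ∘ u := rfl
  rw [h1]
  apply hu.comp_left
  simp [Real.sqrt_sq hη.le]

theorem reg_fderiv {n : ℕ} (u : H n → ℂ) (hu : ContDiff ℝ ∞ u) (η : ℝ) (hη : 0 < η)
    (z v : H n) : ‖fderiv ℝ (reg u η) z v‖ ≤ ‖fderiv ℝ u z v‖ := by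
  have hd : DifferentiableAt ℝ u z := (hu.differentiable (by simp)) z
  have hpos : 0 < ‖u z‖ ^ 2 + η ^ 2 := by positivity
  have h1 : HasFDerivAt (fun z => ‖u z‖ ^ 2 + η ^ 2)
      (2 • (innerSL ℝ (u z)).comp (fderiv ℝ u z)) z := by
    have := (hd.hasFDerivAt.norm_sq).add_const (η ^ 2)
    exact this
  have h2 := (h1.sqrt hpos.ne').sub_const η
  have h3 : HasFDerivAt (reg u η) _ z := h2
  rw [h3.fderiv]
  set s := Real.sqrt (‖u z‖ ^ 2 + η ^ 2) with hs
  have hs0 : 0 < s := Real.sqrt_pos.2 hpos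
  have hus : ‖u z‖ ≤ s := by
    apply Real.le_sqrt_of_sq_le
    nlinarith [sq_nonneg η]
  have h4 : ((1 / (2 * s)) • (2 • (innerSL ℝ (u z)).comp (fderiv ℝ u z))) v =
      ⟪u z, fderiv ℝ u z v⟫_ℝ / s := by
    simp only [ContinuousLinearMap.smul_apply, ContinuousLinearMap.comp_apply, innerSL_apply_apply,
      smul_eq_mul, nsmul_eq_mul]
    field_simp
    push_cast
    ring
  rw [h4, norm_div, Real.norm_eq_abs s, abs_of_pos hs0, div_le_iff₀ hs0]
  calc ‖⟪u z, fderiv ℝ u z v⟫_ℝ‖ ≤ ‖u z‖ * ‖fderiv ℝ u z v‖ := norm_inner_le_norm _ _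
    _ ≤ s * ‖fderiv ℝ u z v‖ := by gcongr
    _ = _ := by ring

theorem reg_grad {n : ℕ} (u : H n → ℂ) (hu : ContDiff ℝ ∞ u) (η : ℝ) (hη : 0 < η)
    (z : H n) : grad (reg u η) z ≤ grad u z := by
  unfold grad X Y
  apply Real.sqrt_le_sqrt
  apply Finset.sum_le_sum
  intro j _
  have h1 := reg_fderiv u hu η hη z (EuclideanSpace.single j (1 : ℝ), 0, 2 * z.2.1 j)
  have h2 := reg_fderiv u hu η hη z (0, EuclideanSpace.single j (1 : ℝ), -2 * z.1 j)
  gcongr

/-- **Row CPX.** -/
theorem pf_CPX : T_CPX := by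
  intro n p C hn hp1 hp2
  constructor
  · intro h u hu hs
    have h1 := h (fun z => (u z : ℂ)) (Complex.ofRealCLM.contDiff.comp hu)
      (hs.comp_left (g := fun x : ℝ => (x : ℂ)) (by simp))
    simp only [Complex.norm_real] at h1
    simp only [grad_ofReal u hu] at h1
    exact h1
  · intro hC h u hu hs
    have hq0 : 0 < (2 * (n : ℝ) + 2) * p / (2 * n + 2 - p) := by
      apply div_pos
      · positivity
      · linarith
    set q : ℝ := (2 * (n : ℝ) + 2) * p / (2 * n + 2 - p) with hq
    set θ : ℝ := (2 * (n : ℝ) + 2 - p) / (2 * n + 2) with hθ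
    have hθ0 : 0 < θ := by
      apply div_pos
      · linarith
      · positivity
    have hint : Integrable fun z => grad u z ^ p := by
      apply Continuous.integrable_of_hasCompactSupport
      · exact (grad_cont u hu).rpow_const fun _ => Or.inr (by linarith)
      · exact (grad_supp u hs).comp_left (g := fun x : ℝ => x ^ p)
          (Real.zero_rpow (by linarith))
    have huq : Integrable fun z => ‖u z‖ ^ q := by
      apply Continuous.integrable_of_hasCompactSupport
      · exact hu.continuous.norm.rpow_const fun _ => Or.inr hq0.le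
      · exact hs.comp_left (g := fun x : ℂ => ‖x‖ ^ q) (by
          simp [Real.zero_rpow hq0.ne'])
    have hη : ∀ k : ℕ, 0 < 1 / ((k : ℝ) + 1) := fun k => by positivity
    have hk : ∀ k : ℕ, (∫ z, ‖reg u (1 / ((k : ℝ) + 1)) z‖ ^ q) ^ θ ≤
        C * ∫ z, grad u z ^ p := by
      intro k
      refine (h _ (reg_smooth u hu _ (hη k)) (reg_supp u hs _ (hη k))).trans ?_
      apply mul_le_mul_of_nonneg_left _ hC
      apply integral_mono_of_nonneg
      · exact Filter.Eventually.of_forall fun z =>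
          Real.rpow_nonneg (Real.sqrt_nonneg _) _
      · exact hint
      · exact Filter.Eventually.of_forall fun z =>
          Real.rpow_le_rpow (Real.sqrt_nonneg _) (reg_grad u hu _ (hη k) z) (by linarith)
    have hlim : Tendsto (fun k : ℕ => ∫ z, ‖reg u (1 / ((k : ℝ) + 1)) z‖ ^ q) atTop
        (𝓝 (∫ z, ‖u z‖ ^ q)) := by
      apply tendsto_integral_of_dominated_convergence (fun z => ‖u z‖ ^ q)
      · intro k
        exact ((reg_smooth u hu _ (hη k)).continuous.norm.rpow_const
          fun _ => Or.inr hq0.le).aestronglyMeasurable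
      · exact huq
      · intro k
        refine Filter.Eventually.of_forall fun z => ?_
        rw [Real.norm_of_nonneg (by positivity)]
        apply Real.rpow_le_rpow (norm_nonneg _) _ hq0.le
        rw [Real.norm_of_nonneg (reg_nonneg u _ (hη k) z)]
        exact reg_le u _ (hη k) z
      · refine Filter.Eventually.of_forall fun z => ?_
        apply Tendsto.rpow_const _ (Or.inr hq0.le)
        have h0 : Tendsto (fun k : ℕ => 1 / ((k : ℝ) + 1)) atTop (𝓝 0) :=
          tendsto_one_div_add_atTop_nhds_zero_nat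
        have h1 : Tendsto (fun k : ℕ => reg u (1 / ((k : ℝ) + 1)) z) atTop
            (𝓝 (Real.sqrt (‖u z‖ ^ 2 + 0 ^ 2) - 0)) := by
          unfold reg
          apply Tendsto.sub _ h0
          apply (Real.continuous_sqrt.tendsto _).comp
          exact tendsto_const_nhds.add (h0.pow 2)
        have h2 : Real.sqrt (‖u z‖ ^ 2 + 0 ^ 2) - 0 = ‖u z‖ := by
          simp [Real.sqrt_sq (norm_nonneg _)]
        rw [h2] at h1
        have h3 := h1.norm
        rwa [norm_norm] at h3
    exact le_of_tendsto' (hlim.rpow_const (Or.inr hθ0.le)) hk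

end Pool.Agent.H69.HC
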