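import Pool.Agent.H33.HC.TB
import Pool.Agent.H62.HH.BQC

set_option autoImplicit false

open NumberField Complex Filter Topology MeasureTheory
open scoped ContDiff nonZeroDivisors

namespace Pool.Agent.H69.HC

open Pool.Agent.H33.HC Pool.Agent.H33.HH Pool.Agent.H28.RC Pool.Agent.H37.CV Pool.Agent.H65.CRZ
open Pool.Agent.H62.HH (finN cd DP_spec reidx)

noncomputable section

section

variable {K : Type} [Field K] [NumberField K]

theorem gc_zero (h1 : T_GSC) {G : ℝ → ℝ} (hG : IsG G) {Z : ℝ} (hZ : 0 < Z) {s : ℂ} (hs : Nr s)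
    {t : ℝ} (h : 3 * (2 * Z) ≤ t) : gc G Z s t = 0 := by
  unfold gc
  rw [(((h1 G hG).1 s hs).2.2.1 (t / Z) ((le_div_iff₀ hZ).2 (by linarith))), mul_zero]

open scoped Classical in
theorem cfs_eq (P y Z : ℝ) (G : ℝ → ℝ) (s z : ℂ) (n : Ideal (𝓞 K)) :
    cfs P y Z G s z n = ∑ S ∈ DP K P y, if cd P S n then
      (lm K P y S : ℂ) * ((nS np S : ℝ) : ℂ) ^ (-z) * gc G Z s (nm n / nS np S) else 0 := by
  unfold cfs
  by_cases h : n ≠ ⊥ ∧ Cp P n
  · rw [if_pos h, Finset.sum_filter]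
    refine Finset.sum_congr rfl fun S _ => ?_
    by_cases hd : idS S ∣ n
    · rw [if_pos hd, if_pos ⟨h.1, h.2, hd⟩]
    · rw [if_neg hd, if_neg fun h' => hd h'.2.2]
  · rw [if_neg h]
    symm
    refine Finset.sum_eq_zero fun S _ => ?_
    rw [if_neg fun h' => h ⟨h'.1, h'.2.1⟩]

open scoped Classical in
theorem qa2_eq (h1 : T_GSC) {G : ℝ → ℝ} (hG : IsG G) {P y Z : ℝ} (hZ : 0 < Z) {s s' : ℂ}
    (hs : Nr s) (hs' : Nr s') (N : Finset (Ideal (𝓞 K)))
    (hN : ∀ n, n ∈ N ↔ nm n ≤ 3 * y * (2 * Z)) {S T : Finset (PrI K)} (hS : S ∈ DP K P y)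
    (hT : T ∈ DP K P y) (f : Ideal (𝓞 K)) :
    Qa2 P Z G s s' f (idS S) (idS T) = ∑ m ∈ N, if cd P S m then ∑ n ∈ N, (if cd P T n then
      (kap f m n : ℂ) * (gc G Z s (nm m / nS np S) * gc G Z s' (nm n / nS np T)) else 0)
      else 0 := by
  have hZ2 : 0 < 2 * Z := by linarith
  unfold Qa2 sumZ
  have h2 : ∀ m : NI K, (∑' n : NI K, if Cp P n.1 then (kap f (idS S * m.1) (idS T * n.1) : ℂ) *
      (gc G Z s (nm m.1) * gc G Z s' (nm n.1)) else 0) =
      ∑ n ∈ N, if cd P T n then (kap f (idS S * m.1) n : ℂ) *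
        (gc G Z s (nm m.1) * gc G Z s' (nm n / nS np T)) else 0 := by
    intro m
    exact reidx (E := ℂ) hZ2 N hN hT (fun t n => (kap f (idS S * m.1) n : ℂ) *
      (gc G Z s (nm m.1) * gc G Z s' t)) (by
      intro t n ht
      rw [gc_zero h1 hG hZ hs' ht]
      simp)
  simp only [h2]
  exact reidx (E := ℂ) hZ2 N hN hS (fun t m => ∑ n ∈ N, if cd P T n then (kap f m n : ℂ) *
        (gc G Z s t * gc G Z s' (nm n / nS np T)) else 0) (by
      intro t n ht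
      rw [gc_zero h1 hG hZ hs ht]
      simp)

theorem qq2_eq (h1 : T_GSC) {G : ℝ → ℝ} (hG : IsG G) {P y Z : ℝ} (hZ : 0 < Z) {s s' : ℂ}
    (hs : Nr s) (hs' : Nr s') (z z' : ℂ) (f : Ideal (𝓞 K)) :
    QQ2 f (cfs P y Z G s z) (cfs P y Z G s' z') = ∑ S ∈ DP K P y, ∑ T ∈ DP K P y,
      ((lm K P y S * lm K P y T : ℝ) : ℂ) * (((nS np S : ℝ) : ℂ) ^ (-z) *
        ((nS np T : ℝ) : ℂ) ^ (-z')) * Qa2 P Z G s s' f (idS S) (idS T) := by
  classical
  set N : Finset (Ideal (𝓞 K)) := (finN (K := K) (3 * y * (2 * Z))).toFinset with hNdef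
  have hN : ∀ n, n ∈ N ↔ nm n ≤ 3 * y * (2 * Z) := by
    intro n
    rw [hNdef]
    simp
  have hsub : ∀ (σ w : ℂ), Nr σ →
      Function.support (cfs (K := K) P y Z G σ w) ⊆ (N : Set (Ideal (𝓞 K))) := by
    intro σ w hσ n hn
    refine (hN n).2 ?_
    rw [Function.mem_support, cfs_eq] at hn
    obtain ⟨S, hS, h2⟩ := Finset.exists_ne_zero_of_sum_ne_zero hn
    have hc : cd P S n := by
      by_contra hc
      exact h2 (if_neg hc)
    rw [if_pos hc] at h2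
    by_contra hlt
    rw [not_le] at hlt
    obtain ⟨h3, -, -, -, h5⟩ := DP_spec hS
    apply h2
    rw [gc_zero h1 hG hZ hσ, mul_zero]
    rw [le_div_iff₀ h5]
    have : 3 * (2 * Z) * nS np S ≤ 3 * y * (2 * Z) := by nlinarith
    linarith
  have e1 : ∀ S ∈ DP K P y, ∀ T ∈ DP K P y,
      ((lm K P y S * lm K P y T : ℝ) : ℂ) * (((nS np S : ℝ) : ℂ) ^ (-z) *
        ((nS np T : ℝ) : ℂ) ^ (-z')) * Qa2 P Z G s s' f (idS S) (idS T) =
      ((lm K P y S * lm K P y T : ℝ) : ℂ) * (((nS np S : ℝ) : ℂ) ^ (-z) *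
        ((nS np T : ℝ) : ℂ) ^ (-z')) *
        ∑ m ∈ N, if cd P S m then ∑ n ∈ N, (if cd P T n then (kap f m n : ℂ) *
          (gc G Z s (nm m / nS np S) * gc G Z s' (nm n / nS np T)) else 0) else 0 := by
    intro S hS T hT
    rw [qa2_eq h1 hG hZ hs hs' N hN hS hT f]
  rw [Finset.sum_congr rfl fun S hS => Finset.sum_congr rfl fun T hT => e1 S hS T hT]
  unfold QQ2
  rw [finsum_eq_sum_of_support_subset (s := N ×ˢ N)]
  · rw [Finset.sum_product]
    simp only [cfs_eq]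
    have h2 : ∀ m n : Ideal (𝓞 K), (kap f m n : ℂ) *
        (∑ S ∈ DP K P y, if cd P S m then
          (lm K P y S : ℂ) * ((nS np S : ℝ) : ℂ) ^ (-z) * gc G Z s (nm m / nS np S) else 0) *
        (∑ T ∈ DP K P y, if cd P T n then
          (lm K P y T : ℂ) * ((nS np T : ℝ) : ℂ) ^ (-z') * gc G Z s' (nm n / nS np T) else 0) =
        ∑ S ∈ DP K P y, ∑ T ∈ DP K P y, ((lm K P y S * lm K P y T : ℝ) : ℂ) *
          (((nS np S : ℝ) : ℂ) ^ (-z) * ((nS np T : ℝ) : ℂ) ^ (-z')) *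
          (if cd P S m then (if cd P T n then (kap f m n : ℂ) *
          (gc G Z s (nm m / nS np S) * gc G Z s' (nm n / nS np T)) else 0) else 0) := by
      intro m n
      rw [mul_assoc, Finset.sum_mul_sum, Finset.mul_sum]
      refine Finset.sum_congr rfl fun S hS => ?_
      rw [Finset.mul_sum]
      refine Finset.sum_congr rfl fun T hT => ?_
      push_cast
      split_ifs
      · ring
      · ring
      · ring
      · ring
    simp only [h2]
    have h3 : ∀ F : Ideal (𝓞 K) → Ideal (𝓞 K) → Finset (PrI K) → Finset (PrI K) → ℂ,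
        ∑ m ∈ N, ∑ n ∈ N, ∑ S ∈ DP K P y, ∑ T ∈ DP K P y, F m n S T =
        ∑ S ∈ DP K P y, ∑ T ∈ DP K P y, ∑ m ∈ N, ∑ n ∈ N, F m n S T := by
      intro F
      calc ∑ m ∈ N, ∑ n ∈ N, ∑ S ∈ DP K P y, ∑ T ∈ DP K P y, F m n S T
          = ∑ m ∈ N, ∑ S ∈ DP K P y, ∑ n ∈ N, ∑ T ∈ DP K P y, F m n S T :=
            Finset.sum_congr rfl fun m _ => Finset.sum_comm
        _ = ∑ S ∈ DP K P y, ∑ m ∈ N, ∑ n ∈ N, ∑ T ∈ DP K P y, F m n S T := Finset.sum_comm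
        _ = ∑ S ∈ DP K P y, ∑ m ∈ N, ∑ T ∈ DP K P y, ∑ n ∈ N, F m n S T :=
            Finset.sum_congr rfl fun S _ => Finset.sum_congr rfl fun m _ => Finset.sum_comm
        _ = ∑ S ∈ DP K P y, ∑ T ∈ DP K P y, ∑ m ∈ N, ∑ n ∈ N, F m n S T :=
            Finset.sum_congr rfl fun S _ => Finset.sum_comm
    refine Eq.trans (h3 _) ?_
    refine Finset.sum_congr rfl fun S hS => Finset.sum_congr rfl fun T hT => ?_
    rw [Finset.mul_sum]
    refine Finset.sum_congr rfl fun m _ => ?_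
    split_ifs with hc
    · rw [Finset.mul_sum]
    · simp
  · intro p hp
    rw [Function.mem_support] at hp
    rw [Finset.mem_coe, Finset.mem_product]
    constructor
    · refine hsub s z hs ?_
      rw [Function.mem_support]
      intro h0
      exact hp (by rw [h0]; simp)
    · refine hsub s' z' hs' ?_
      rw [Function.mem_support]
      intro h0
      exact hp (by rw [h0]; simp)

/-- a sum over the ideals with finite support -/
theorem sumZ_fin (P Q : ℝ) (B : Finset (NI K)) (hB : ∀ I : NI K, I ∈ B ↔ nm I.1 ≤ Q)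
    (f : Ideal (𝓞 K) → ℂ) (hf : ∀ q, Q ≤ nm q → f q = 0) :
    sumZ P f = ∑ I ∈ B, open scoped Classical in if Cp P I.1 then f I.1 else 0 := by
  classical
  unfold sumZ
  refine tsum_eq_sum fun I hI => ?_
  rw [hB, not_le] at hI
  rw [hf I.1 hI.le]
  simp

end

/-- OPS: the second moment opened. -/
theorem pf_OPS (h1 : T_GSC) (h2 : Pool.Agent.H33.HH.T_IDF) : T_OPS := by
  classical
  intro K _ _ _ P y Z Q W G k α β u hy hZ hQ hW hG hk hα hβ
  set B : Finset (NI K) := ((finN (K := K) Q).preimage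
    Subtype.val_injective.injOn).toFinset with hBdef
  have hB : ∀ I : NI K, I ∈ B ↔ nm I.1 ≤ Q := by
    intro I
    rw [hBdef]
    simp
  have hW0 : ∀ q : Ideal (𝓞 K), Q ≤ nm q → ((W (nm q / Q) * nm q : ℝ) : ℂ) = 0 := by
    intro q hq
    rw [hW.high (nm q / Q) ((one_le_div hQ).2 hq), zero_mul, Complex.ofReal_zero]
  unfold SMs Ba2
  rw [sumZ_fin P Q B hB _ (fun q hq => by rw [hW0 q hq, zero_mul])]
  have e2 : ∀ S T : Finset (PrI K), sumZ P (fun q => ((W (nm q / Q) * nm q : ℝ) : ℂ) *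
      Qa2 P Z G (se α u) (se β (-u)) (k * q) (idS S) (idS T)) =
      ∑ I ∈ B, if Cp P I.1 then ((W (nm I.1 / Q) * nm I.1 : ℝ) : ℂ) *
      Qa2 P Z G (se α u) (se β (-u)) (k * I.1) (idS S) (idS T) else 0 := by
    intro S T
    exact sumZ_fin P Q B hB _ (fun q hq => by rw [hW0 q hq, zero_mul])
  simp only [e2]
  have e3 : ∀ q : Ideal (𝓞 K), QQ2 (k * q) (cfs P y Z G (se α u) (se 0 u))
      (cfs P y Z G (se β (-u)) (se 0 (-u))) = ∑ S ∈ DP K P y, ∑ T ∈ DP K P y,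
      ((lm K P y S * lm K P y T : ℝ) : ℂ) * (((nS np S : ℝ) : ℂ) ^ (-(se 0 u)) *
        ((nS np T : ℝ) : ℂ) ^ (-(se 0 (-u)))) *
        Qa2 P Z G (se α u) (se β (-u)) (k * q) (idS S) (idS T) :=
    fun q => qq2_eq h1 hG hZ hα hβ _ _ _
  simp only [e3]
  have e4 : ∀ S ∈ DP K P y, ∀ T ∈ DP K P y,
      ((lm K P y S * lm K P y T : ℝ) : ℂ) * (((nm (idS S) : ℝ) : ℂ) ^ (-se 0 u) *
      ((nm (idS T) : ℝ) : ℂ) ^ (-se 0 (-u)) *
        ∑ I ∈ B, if Cp P I.1 then ((W (nm I.1 / Q) * nm I.1 : ℝ) : ℂ) *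
          Qa2 P Z G (se α u) (se β (-u)) (k * I.1) (idS S) (idS T) else 0) =
      ∑ I ∈ B, if Cp P I.1 then ((W (nm I.1 / Q) * nm I.1 : ℝ) : ℂ) *
        (((lm K P y S * lm K P y T : ℝ) : ℂ) * (((nS np S : ℝ) : ℂ) ^ (-(se 0 u)) *
        ((nS np T : ℝ) : ℂ) ^ (-(se 0 (-u)))) *
        Qa2 P Z G (se α u) (se β (-u)) (k * I.1) (idS S) (idS T)) else 0 := by
    intro S hS T hT
    rw [(DP_spec hS).2.2.2.1, (DP_spec hT).2.2.2.1, Finset.mul_sum, Finset.mul_sum]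
    refine Finset.sum_congr rfl fun I _ => ?_
    split_ifs
    · ring
    · ring
  rw [Finset.sum_congr rfl fun S hS => Finset.sum_congr rfl fun T hT => e4 S hS T hT]
  have e5 : ∀ I : NI K, (if Cp P I.1 then ((W (nm I.1 / Q) * nm I.1 : ℝ) : ℂ) *
      (∑ S ∈ DP K P y, ∑ T ∈ DP K P y,
      ((lm K P y S * lm K P y T : ℝ) : ℂ) * (((nS np S : ℝ) : ℂ) ^ (-(se 0 u)) *
        ((nS np T : ℝ) : ℂ) ^ (-(se 0 (-u)))) *
        Qa2 P Z G (se α u) (se β (-u)) (k * I.1) (idS S) (idS T)) else 0) =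
      ∑ S ∈ DP K P y, ∑ T ∈ DP K P y, if Cp P I.1 then ((W (nm I.1 / Q) * nm I.1 : ℝ) : ℂ) *
        (((lm K P y S * lm K P y T : ℝ) : ℂ) * (((nS np S : ℝ) : ℂ) ^ (-(se 0 u)) *
        ((nS np T : ℝ) : ℂ) ^ (-(se 0 (-u)))) *
        Qa2 P Z G (se α u) (se β (-u)) (k * I.1) (idS S) (idS T)) else 0 := by
    intro I
    split_ifs
    · rw [Finset.mul_sum]
      exact Finset.sum_congr rfl fun S _ => Finset.mul_sum _ _ _
    · simp
  simp only [e5]
  rw [Finset.sum_comm]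
  exact Finset.sum_congr rfl fun S _ => Finset.sum_comm

end

end Pool.Agent.H69.HC
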